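import Mathlib
import Pool.Agent.V8H14.MHA.Final

/-!
# The magnitude homology of a real hyperplane arrangement is determined by its intersection lattice
-/

set_option autoImplicit false

namespace Pool.Agent.Results.MP_1c795d_co.LatticeInvariance

open Pool.Agent.R142.Arr Pool.Agent.R142.MagHom

/-- The intersection lattice of `A`: all intersections of subsets of `A` (the empty intersection
being the whole space), ordered by reverse inclusion. -/
abbrev L {d : ℕ} (A : Finset (Submodule ℝ (Fin d → ℝ))) : Type :=
  {X : Submodule ℝ (Fin d → ℝ) // ∃ B ⊆ A, X = ⨅ H ∈ B, H}ᵒᵈ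

/-- Q1 holds: if `L(A)` and `L(A')` are isomorphic as posets, then `MH_{k,l}(A)` and `MH_{k,l}(A')`
are isomorphic as abelian groups for all `k, l`. -/
theorem result : ∀ (d d' : ℕ) (A : Finset (Submodule ℝ (Fin d → ℝ)))
    (A' : Finset (Submodule ℝ (Fin d' → ℝ))), IsArrangement A → IsArrangement A' →
    Nonempty (L A ≃o L A') → ∀ k l : ℕ,
      Nonempty (MH (topeGraph A) k l ≃+ MH (topeGraph A') k l) := by
  rintro d d' A A' hA hA' ⟨e⟩ k l
  exact Pool.Agent.V8H14.MHA.mh_lattice A A' hA hA' e k l

end Pool.Agent.Results.MP_1c795d_co.LatticeInvariance
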